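import Pool.Agent.N356.SP.DefsK

/-!
# Project LK (helper356), part GK7a (helper163): the three term recursion of `p_k`
-/

set_option autoImplicit false

namespace Pool.Agent.N356.SP

open Finset

namespace PkRec

noncomputable def c (k j : ℕ) : ℝ := (k.choose (2 * j) : ℝ) * lam j

theorem c_zero {k j : ℕ} (h : k < 2 * j) : c k j = 0 := by
  unfold c
  rw [Nat.choose_eq_zero_of_lt h, Nat.cast_zero, zero_mul]

theorem lam_zero : lam 0 = 1 := by
  unfold lam
  simp

theorem lam_succ (j : ℕ) : ((j : ℝ) + 1) * lam (j + 1) = (2 * j + 1) * lam j := by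
  unfold lam
  have h := Nat.succ_mul_centralBinom_succ j
  unfold Nat.centralBinom at h
  have h' : ((j : ℝ) + 1) * (((2 * (j + 1)).choose (j + 1) : ℕ) : ℝ) =
      2 * (2 * j + 1) * (((2 * j).choose j : ℕ) : ℝ) := by exact_mod_cast h
  rw [pow_succ]
  field_simp
  linarith

/-- the terms before the first one -/
noncomputable def d (k : ℕ) : ℕ → ℝ
  | 0 => 0
  | j + 1 => c k j

theorem coef (k j : ℕ) : ((k : ℝ) + 2) * c (k + 2) j =
    (2 * (k + 1) + 1) * c (k + 1) j - (((k : ℝ) + 1) * c k j - 2 * (k + 1) * d k j) := by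
  rcases j with _ | j
  · unfold c d
    simp
    ring
  · show ((k : ℝ) + 2) * c (k + 2) (j + 1) =
      (2 * (k + 1) + 1) * c (k + 1) (j + 1) - (((k : ℝ) + 1) * c k (j + 1) - 2 * (k + 1) * c k j)
    unfold c
    have h1 := lam_succ j
    have hj : (2 * (j : ℝ) + 1) ≠ 0 := by positivity
    have h2 : lam j = ((j : ℝ) + 1) * lam (j + 1) / (2 * j + 1) := by
      rw [h1]
      field_simp
    rw [h2]
    obtain ⟨a, ha⟩ : ∃ a : ℕ, a = (k + 1).choose (2 * j + 1) := ⟨_, rfl⟩
    obtain ⟨b, hb⟩ : ∃ b : ℕ, b = (k + 1).choose (2 * (j + 1)) := ⟨_, rfl⟩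
    have e1 : (k + 2).choose (2 * (j + 1)) = a + b := by
      rw [ha, hb]
      exact Nat.choose_succ_succ (k + 1) (2 * j + 1)
    have e2 : (k + 1) * k.choose (2 * j) = a * (2 * j + 1) := by
      rw [ha]
      exact Nat.add_one_mul_choose_eq k (2 * j)
    have e3 : (k + 1).choose (2 * (j + 1)) = k.choose (2 * j + 1) + k.choose (2 * (j + 1)) :=
      Nat.choose_succ_succ k (2 * j + 1)
    have e4 : (k + 1) * k.choose (2 * j + 1) = b * (2 * j + 2) := by
      rw [hb]
      exact Nat.add_one_mul_choose_eq k (2 * j + 1)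
    have e5 : (k + 1).choose (2 * j + 1) = k.choose (2 * j) + k.choose (2 * j + 1) :=
      Nat.choose_succ_succ k (2 * j)
    rw [← hb] at e3 ⊢
    rw [← ha] at e5
    rw [e1]
    have f2 : ((k : ℝ) + 1) * (k.choose (2 * j) : ℝ) = a * (2 * j + 1) := by exact_mod_cast e2
    have f3 : (b : ℝ) = (k.choose (2 * j + 1) : ℝ) + (k.choose (2 * (j + 1)) : ℝ) := by
      exact_mod_cast e3
    have f4 : ((k : ℝ) + 1) * (k.choose (2 * j + 1) : ℝ) = b * (2 * j + 2) := by exact_mod_cast e4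
    have f5 : (a : ℝ) = (k.choose (2 * j) : ℝ) + (k.choose (2 * j + 1) : ℝ) := by
      exact_mod_cast e5
    have f6 : (k.choose (2 * j) : ℝ) * (((j : ℝ) + 1) * lam (j + 1) / (2 * j + 1)) * (k + 1) =
        a * ((j + 1) * lam (j + 1)) := by
      field_simp
      linear_combination (lam (j + 1)) * f2
    push_cast
    linear_combination (-2) * f6 - lam (j + 1) * ((k : ℝ) + 1) * f3 +
      lam (j + 1) * ((k : ℝ) + 1) * f5 + lam (j + 1) * f2

section

variable {A : Type*} [CommRing A] [Algebra ℝ A]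

theorem pK_eq (k N : ℕ) (hN : k / 2 + 1 ≤ N) (μ t : A) :
    pK k μ t = ∑ j ∈ range N, c k j • (t ^ j * μ ^ (k - 2 * j)) := by
  unfold pK
  refine sum_subset (range_subset_range.2 hN) fun j _ hj => ?_
  rw [mem_range, not_lt] at hj
  have h : k < 2 * j := by omega
  have := c_zero h
  unfold c at this
  rw [this, zero_smul]

theorem mu_mul (k N : ℕ) (hN : k / 2 + 1 ≤ N) (μ t : A) (i : ℕ) :
    μ ^ i * pK k μ t = ∑ j ∈ range N, c k j • (t ^ j * μ ^ (k + i - 2 * j)) := by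
  rw [pK_eq k N hN, mul_sum]
  refine sum_congr rfl fun j _ => ?_
  by_cases h : k < 2 * j
  · rw [c_zero h, zero_smul, zero_smul, mul_zero]
  · have e : k + i - 2 * j = (k - 2 * j) + i := by omega
    rw [e, pow_add, mul_smul_comm]
    congr 1
    ring

theorem t_mul (k N : ℕ) (hN : k / 2 + 1 ≤ N) (μ t : A) :
    t * pK k μ t = ∑ j ∈ range (N + 1), d k j • (t ^ j * μ ^ (k + 2 - 2 * j)) := by
  rw [sum_range_succ', pK_eq k N hN, mul_sum]
  show _ = _ + (0 : ℝ) • (_ : A)
  rw [zero_smul, add_zero]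
  refine sum_congr rfl fun j _ => ?_
  show _ = c k j • (t ^ (j + 1) * μ ^ (k + 2 - 2 * (j + 1)))
  have e : k + 2 - 2 * (j + 1) = k - 2 * j := by omega
  rw [e, mul_smul_comm, pow_succ]
  congr 1
  ring

end

end PkRec

open PkRec in
/-- GK7a: the three term recursion -/
theorem pK_rec {A : Type*} [CommRing A] [Algebra ℝ A] {k : ℕ} (hk : 1 ≤ k) (μ t : A) :
    ((k:ℝ) + 1) • pK (k + 1) μ t =
      (2 * (k:ℝ) + 1) • (μ * pK k μ t) - (k:ℝ) • ((μ ^ 2 - (2:ℝ) • t) * pK (k - 1) μ t) := by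
  obtain ⟨k, rfl⟩ : ∃ m, k = m + 1 := ⟨k - 1, by omega⟩
  rw [Nat.add_sub_cancel]
  have h1 := pK_eq (k + 1 + 1) (k + 3) (by omega) μ t
  have h2 := mu_mul (k + 1) (k + 3) (by omega) μ t 1
  have h3 := mu_mul k (k + 3) (by omega) μ t 2
  have h4 := t_mul k (k + 2) (by omega) μ t
  rw [pow_one] at h2
  rw [sub_mul, smul_mul_assoc, h1, h2, h3, h4]
  simp only [smul_sum, ← sum_sub_distrib, smul_smul]
  refine sum_congr rfl fun j _ => ?_
  have e1 : k + 1 + 1 - 2 * j = k + 2 - 2 * j := rfl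
  rw [e1, smul_sub, smul_smul, smul_smul, ← sub_smul, ← sub_smul]
  congr 1
  have := coef k j
  push_cast
  linear_combination this

end Pool.Agent.N356.SP
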